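import Pool.Agent.P.MP_8fb1ed_pr.Fl.Tree
import Pool.Agent.P.MP_8fb1ed_pr.Fl.Q1
import Pool.Agent.P.MP_8fb1ed_pr.Fl.Class
import Pool.Agent.P.MP_8fb1ed_pr.Fl.Hier

open MeasureTheory
open scoped ENNReal
open Pool.Agent.FusfTree Pool.Agent.FusfFlat

universe u

/-- In every Cayley graph of a finitely generated group of the tree hierarchy, the free uniform
spanning forest is connected by an invariant percolation of arbitrarily small density. -/
theorem Pool.Agent.Results.MP_8fb1ed_pr.TreeHierarchy.result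
    (Γ : Type u) [Group Γ] (S : Finset Γ) (hgen : Subgroup.closure (S : Set Γ) = ⊤)
    (hΓ : Hier Γ) :
    ∃ μ : Measure (Cfg Γ), IsFUSF (SimpleGraph.mulCayley (S : Set Γ)) μ ∧
      (∀ μ', IsFUSF (SimpleGraph.mulCayley (S : Set Γ)) μ' → μ' = μ) ∧
      ∀ ε : ℝ≥0∞, 0 < ε → ∃ ν : Measure (Cfg Γ × Cfg Γ), IsProbabilityMeasure ν ∧
        (∀ g : Γ, ν.map (fun p => (shift g p.1, shift g p.2)) = ν) ∧ ν.map Prod.fst = μ ∧
        ∫⁻ p, ({y | (graphOf p.2).Adj 1 y}.encard : ℝ≥0∞) ∂ν < ε ∧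
        ∀ᵐ p ∂ν, graphOf p.1 ⊔ graphOf p.2 ≤ SimpleGraph.mulCayley (S : Set Γ) ∧
          (graphOf p.1 ⊔ graphOf p.2).Connected := by
  have hT : TreeHier Γ := hΓ TreeHier
    ⟨fun _ _ _ h => h.elim TreeHier.of_approx TreeHier.of_folner,
      fun _ _ _ _ T _ => TreeHier.of_tree T, fun _ _ => TreeHier.step,
      fun _ _ _ _ => TreeHier.ext,
      fun _ _ H => TreeHier.of_injective H.subtype H.subtype_injective,
      fun _ _ H _ => TreeHier.of_finiteIndex H, fun _ _ _ => TreeHier.of_local⟩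
  have := countable_of_gen S hgen
  have hG := cay_mulCayley S hgen
  obtain ⟨μ, hμ, huniq, hinv, hμG⟩ := exists_fusf hG
  have := hμ.1
  exact ⟨μ, hμ, huniq, fun ε hε => sparse_connect_flat hG (flat_of_treeHier hT) hinv hμG
    (fusf_complete hG.conn hμ) hε⟩
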